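import Mathlib
import Pool.Agent.W845.GL.Stm

set_option autoImplicit false

namespace Pool.Agent.W377.GL.AE

open Filter Pool.Agent.W845.GL
open scoped Topology

noncomputable def pp (n : ℕ) : ℝ := 1 / (1 + Real.log ((n : ℝ) + 1))

theorem log_nn (n : ℕ) : 0 ≤ Real.log ((n : ℝ) + 1) :=
  Real.log_nonneg (by have := Nat.cast_nonneg (α := ℝ) n; linarith)

theorem pp_pos (n : ℕ) : 0 < pp n := by
  have := log_nn n
  unfold pp
  positivity

theorem pp_le (n : ℕ) : pp n ≤ 1 := by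
  have := log_nn n
  unfold pp
  rw [div_le_one (by linarith)]
  linarith

theorem shift : Tendsto (fun n : ℕ => (n : ℝ) + 1) atTop atTop :=
  tendsto_atTop_add_const_right _ _ tendsto_natCast_atTop_atTop

theorem pp_tend : Tendsto pp atTop (𝓝 0) := by
  have h1 : Tendsto (fun n : ℕ => 1 + Real.log ((n : ℝ) + 1)) atTop atTop :=
    tendsto_atTop_add_const_left _ _ (Real.tendsto_log_atTop.comp shift)
  have h2 := h1.inv_tendsto_atTop
  refine h2.congr fun n => ?_
  simp [pp]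

theorem pp_low (ε : ℝ) (hε : 0 < ε) : ∀ᶠ n : ℕ in atTop, (n : ℝ) ^ (-ε) ≤ pp n := by
  -- 1 + log (n+1) ≤ n ^ ε eventually
  have h1 : (fun x : ℝ => Real.log x) =o[atTop] fun x : ℝ => x ^ (ε : ℝ) :=
    isLittleO_log_rpow_atTop hε
  have h2 : ∀ᶠ x : ℝ in atTop, Real.log x ≤ (1 / 4) * x ^ ε := by
    have := h1.bound (show (0 : ℝ) < 1 / 4 by norm_num)
    filter_upwards [this, eventually_ge_atTop (1 : ℝ)] with x hx hx1
    have h3 : 0 ≤ x ^ ε := Real.rpow_nonneg (by linarith) _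
    rw [Real.norm_eq_abs, Real.norm_eq_abs, abs_of_nonneg h3] at hx
    exact le_trans (le_abs_self _) hx
  have h3 : ∀ᶠ n : ℕ in atTop, Real.log (n : ℝ) ≤ (1 / 4) * (n : ℝ) ^ ε :=
    tendsto_natCast_atTop_atTop.eventually h2
  have h4 : ∀ᶠ n : ℕ in atTop, (4 : ℝ) ≤ (n : ℝ) ^ ε :=
    ((tendsto_rpow_atTop hε).comp tendsto_natCast_atTop_atTop).eventually_ge_atTop 4
  filter_upwards [h3, h4, eventually_ge_atTop 1] with n h3 h4 hn
  have hn1 : (1 : ℝ) ≤ n := by exact_mod_cast hn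
  have hn0 : (0 : ℝ) < n := by linarith
  have h5 : Real.log ((n : ℝ) + 1) ≤ Real.log n + Real.log 2 := by
    rw [← Real.log_mul hn0.ne' (by norm_num)]
    exact Real.log_le_log (by linarith) (by linarith)
  have h6 : Real.log 2 ≤ 1 := by
    have := Real.log_two_lt_d9
    linarith
  rw [Real.rpow_neg hn0.le]
  unfold pp
  rw [← one_div]
  have h7 := log_nn n
  apply one_div_le_one_div_of_le (by linarith)
  nlinarith

theorem ae_thm : S_AE := ⟨pp, by
  refine ⟨fun n => ⟨pp_pos n, pp_le n⟩, ?_, ?_⟩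
  · exact fun ε hε => pp_low ε hε
  · exact pp_tend⟩

end Pool.Agent.W377.GL.AE
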